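import Pool.Agent.H47.FU.SlipG
import Pool.Agent.H47.ST.GrowB
import Pool.Agent.H45.AC.Adm

/-!
# Project FULL: the phase slip lemma, interface
-/

set_option autoImplicit false

open Filter Topology
open Pool.Agent.H47.QG (Pt Gen)
open Pool.Agent.H47.ST
open Pool.Agent.H45.AC (shG)

namespace Pool.Agent.H47.FU

variable {n : ℕ}

/-- a continuous path of linear maps from the identity to a permutation of the coordinates,
fixing the lattice and preserving `Q` -/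
structure SPath {K : ℕ} [NeZero K] (π : Equiv.Perm (Iz n K)) (fm : (Iz n K → ℝ) → ℝ) (C : ℝ)
    (P : ℝ → ((Iz n K → ℝ) →L[ℝ] (Iz n K → ℝ))) : Prop where
  cont : Continuous P
  zero : ∀ y, P 0 y = y
  one : ∀ y, P 1 y = y ∘ π
  lat : ∀ t, ∀ l ∈ Lc n K, P t (rl l) = rl l
  Q : ∀ t y, QK n K (P t y) = QK n K y
  bd : ∀ t y, |fm (P t y) - fm y| ≤ C

/-- **Phase slip lemma** for a given path. -/
theorem psl_path {K : ℕ} [NeZero K] {π : Equiv.Perm (Iz n K)} {g : (Iz n K → ℝ) → ℝ} {C C₁ : ℝ}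
    {P : ℝ → ((Iz n K → ℝ) →L[ℝ] (Iz n K → ℝ))} (hP : SPath π g C P)
    (hπq : ∀ y, qK n K (y ∘ π) = qK n K y) (hgπ : ∀ y, g (y ∘ π) = g y)
    (hg : ContDiff ℝ 2 g) (hgp : PerL (Lc n K) g)
    (hgr : ∀ y b, |fderiv ℝ g y (Pi.single b 1) - DK n K y b| ≤ C₁)
    (hgQ : ∃ s : ℝ, ∀ y, |g y - QK n K y| ≤ s) (F : Type) [Field F] (bmin : ℝ) :
    ∃ R₀ : ℝ, ∀ R ≥ R₀, ∀ b ≥ bmin, ∀ᶠ M : ℕ in atTop, ∀ j : ℕ,
      ∀ x ∈ co (F := F) (lam (Lc n K) (2 ^ M)) (Xm (qK n K) R (2 ^ M))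
        (Lv (qK n K) (QK n K) g R R b (2 ^ M)) (j + 1), dX (Xm (qK n K) R (2 ^ M)) x = 0 →
      ∃ y ∈ co (F := F) (lam (Lc n K) (2 ^ M)) (Xm (qK n K) R (2 ^ M))
        (Lv (qK n K) (QK n K) g R R (b - C - 1) (2 ^ M)) j,
        ta F π x = dX (Xm (qK n K) R (2 ^ M)) y := by
  sorry

/-- **Slides**: the path of the phase slip. -/
theorem slides (n : ℕ) {S : ℕ → Pt n → ℝ} {N : ℕ} [NeZero N] (hper : ∀ j, S (j + N) = S j)
    {s : ℝ} (hs : ∀ j z, |S j z| ≤ s) (m K : ℕ) [NeZero K] (hK : K = m * N) (hm : Odd m) :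
    ∃ P, SPath (n := n) (shG n K N) (fS S K) (4 * N * s) P := by
  sorry

/-- **Phase slip lemma.** -/
theorem psl {S : ℕ → Pt n → ℝ} {f : ℕ → Pt n → Pt n} (hS : ∀ j, Gen (S j) (f j)) {N : ℕ}
    [NeZero N] (hper : ∀ j, S (j + N) = S j) :
    ∃ C : ℝ, 0 < C ∧ ∀ (m K : ℕ) [NeZero K], K = m * N → Odd m → ∀ (F : Type) [Field F]
      (g : (Iz n K → ℝ) → ℝ) (C₁ : ℝ), ContDiff ℝ 2 g → PerL (Lc n K) g →
      (∀ y, g (y ∘ shG n K N) = g y) →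
      (∀ y b, |fderiv ℝ g y (Pi.single b 1) - DK n K y b| ≤ C₁) →
      (∀ y, |g y - fS S K y| ≤ 1) → ∀ bmin : ℝ, ∃ R₀ : ℝ, ∀ R ≥ R₀, ∀ b ≥ bmin,
      ∀ᶠ M : ℕ in atTop, ∀ j : ℕ,
        ∀ x ∈ co (F := F) (lam (Lc n K) (2 ^ M)) (Xm (qK n K) R (2 ^ M))
          (Lv (qK n K) (QK n K) g R R b (2 ^ M)) (j + 1), dX (Xm (qK n K) R (2 ^ M)) x = 0 →
        ∃ y ∈ co (F := F) (lam (Lc n K) (2 ^ M)) (Xm (qK n K) R (2 ^ M))
          (Lv (qK n K) (QK n K) g R R (b - C) (2 ^ M)) j,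
          ta F (shG n K N) x = dX (Xm (qK n K) R (2 ^ M)) y := by
  sorry

end Pool.Agent.H47.FU
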