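import Pool.Agent.H86.FU.SlipG

/-!
# Project FULL: the transfer lemma on one grid

Block S2 (same mesh). `g 0 = id`, …, `g r = (· ∘ π)` are vertex maps, consecutive ones and
neighbouring vertices are within `κ` (in grid units, sup distance). A cocycle `x` on the large
domain `X₁` relative to `A` satisfies `T x - x = d y` on `X`, relative to `A'`.
-/

set_option autoImplicit false

namespace Pool.Agent.H47.FU

open Pool.Agent.H47.ST

variable {ι : Type*} [Fintype ι] [DecidableEq ι] {F : Type*} [Field F]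

/-- vertices at sup distance at most `κ` -/
def Nk (κ : ℤ) (v w : ι → ℤ) : Prop := ∀ i, |w i - v i| ≤ κ

/-- `v ∈ X` has a neighbour in `X` outside `A'` (or is such a vertex) -/
def Live (X A' : Set (ι → ℤ)) (v : ι → ℤ) : Prop := v ∈ X ∧ ∃ w ∈ X, w ∉ A' ∧ Adj v w

/-- **Transfer lemma.** -/
theorem slip_grid {L : AddSubgroup (ι → ℤ)} {X X₁ A A' : Set (ι → ℤ)} (hX : Inv L X)
    (hX₁ : Inv L X₁) (hA : Inv L A) (hA' : Inv L A') (hXX : X ⊆ X₁) (hAA : A' ⊆ A)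
    (π : Equiv.Perm ι) (hπX : PInv π X) (hπA : PInv π A')
    (g : ℕ → (ι → ℤ) → (ι → ℤ)) (r : ℕ) (κ : ℤ) (h0 : ∀ v, g 0 v = v)
    (hr : ∀ v, g r v = v ∘ π) (hL : ∀ i, ∀ l ∈ L, ∀ v, g i (v + l) = g i v + l)
    (hadj : ∀ i ≤ r, ∀ v w, Live X A' v → Live X A' w → Adj v w → Nk κ (g i v) (g i w))
    (hstep : ∀ i < r, ∀ v, Live X A' v → Nk κ (g i v) (g (i + 1) v))
    (hin : ∀ i ≤ r, ∀ v w, Live X A' v → Nk (2 * κ) (g i v) w → w ∈ X₁)
    (hlow : ∀ i ≤ r, ∀ v w, Live X A' v → v ∈ A' → Nk (2 * κ) (g i v) w → w ∈ A)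
    (p : ℕ) {x : Co ι F} (hx : x ∈ co (F := F) L X₁ A (p + 1)) (hd : dX X₁ x = 0) :
    ∃ y ∈ co (F := F) L X A' p, cut (In X) (ta F π x) = dX X y :=
  Pool.Agent.H86.FU.slip_grid hX hA' hAA π hπA g r κ h0 hr hL hadj hstep hin hlow p hx hd

end Pool.Agent.H47.FU
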